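import Pool.Agent.PDM.Stmts

/-!
# PDM, row SML: small balanced groups
-/

set_option autoImplicit false

namespace Pool.Agent.PDM.H14

open Pool.Agent.PDN

theorem split {t : ℕ} {τ : Ins t} {M : Type*} [AddCommMonoid M] (C : Finset (Big τ))
    (hD : C.toRight.toRight.toRight = ∅) (F : Big τ → M) :
    ∑ v ∈ C, F v = ∑ x ∈ C.toLeft, F (el x) + (∑ p ∈ C.toRight.toLeft, F (tr p) +
      ∑ e ∈ C.toRight.toRight.toLeft, F (ee e)) := by
  conv_lhs => rw [← Finset.toLeft_disjSum_toRight (u := C), Finset.sum_disjSum,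
    ← Finset.toLeft_disjSum_toRight (u := C.toRight), Finset.sum_disjSum,
    ← Finset.toLeft_disjSum_toRight (u := C.toRight.toRight), Finset.sum_disjSum, hD]
  simp

theorem pn {α : Type*} (X : Finset α) (σ : α → ℤ) (hσ : ∀ x, σ x = 1 ∨ σ x = -1) (F : α → ℤ) :
    ∑ x ∈ X, σ x * F x = ∑ x ∈ X.filter (fun x => σ x = 1), F x -
      ∑ x ∈ X.filter (fun x => ¬ σ x = 1), F x := by
  rw [← Finset.sum_filter_add_sum_filter_not X (fun x => σ x = 1), sub_eq_add_neg,
    ← Finset.sum_neg_distrib]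
  congr 1
  · refine Finset.sum_congr rfl fun x hx => ?_
    rw [(Finset.mem_filter.1 hx).2, one_mul]
  · refine Finset.sum_congr rfl fun x hx => ?_
    rcases hσ x with h | h
    · exact absurd h (Finset.mem_filter.1 hx).2
    · rw [h]
      ring

theorem cd {α : Type*} (X : Finset α) (σ : α → ℤ) :
    (X.filter (fun x => σ x = 1)).card + (X.filter (fun x => ¬ σ x = 1)).card = X.card :=
  Finset.card_filter_add_card_filter_not _

/-- the last case -/
theorem last {t : ℕ} {τ : Ins t} (C : Finset (Big τ)) (hD : C.toRight.toRight.toRight = ∅)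
    (hE : C.toRight.toRight.toLeft = ∅) (p : ↥τ) (hB : C.toRight.toLeft = {p})
    (x₁ x₂ x₃ : Fin 3 × Fin t) (hA : C.toLeft = {x₁, x₂, x₃})
    (h : ({x₁, x₂, x₃} : Finset (Fin 3 × Fin t)) = {(0, p.1.1), (1, p.1.2.1), (2, p.1.2.2)}) :
    C = {tr p, el (0, p.1.1), el (1, p.1.2.1), el (2, p.1.2.2)} := by
  rw [h] at hA
  ext v
  rcases v with x | q | e | d
  · rw [← Finset.mem_toLeft, hA]
    simp
  · have : (Sum.inr (Sum.inl q) : Big τ) ∈ C ↔ q ∈ C.toRight.toLeft := by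
      rw [Finset.mem_toLeft, Finset.mem_toRight]
    rw [this, hB]
    simp
  · have : (Sum.inr (Sum.inr (Sum.inl e)) : Big τ) ∈ C ↔ e ∈ C.toRight.toRight.toLeft := by
      rw [Finset.mem_toLeft, Finset.mem_toRight, Finset.mem_toRight]
    rw [this, hE]
    simp
  · have : (Sum.inr (Sum.inr (Sum.inr d)) : Big τ) ∈ C ↔ d ∈ C.toRight.toRight.toRight := by
      rw [Finset.mem_toRight, Finset.mem_toRight, Finset.mem_toRight]
    rw [this, hD]
    simp

theorem sml (hsid : SidStmt) : SmlStmt := by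
  intro t τ C s hs h0 hne hw
  obtain ⟨c6, iA, sid, tri, iC⟩ := hsid t
  have hD : C.toRight.toRight.toRight = ∅ := by
    rw [Finset.eq_empty_iff_forall_notMem]
    intro d hd
    rw [Finset.mem_toRight, Finset.mem_toRight, Finset.mem_toRight] at hd
    exact hw _ hd rfl
  have hW := split C hD (wt (τ := τ))
  have hV := split C hD (fun v => s v * (val v : ℤ))
  rw [h0] at hV
  set A := C.toLeft with hA
  set B := C.toRight.toLeft with hB
  set E := C.toRight.toRight.toLeft with hE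
  have w1 : ∑ x ∈ A, wt (τ := τ) (el x) = A.card * 2 := by
    rw [Finset.sum_const_nat]
    intro x _
    rfl
  have w2 : ∑ p ∈ B, wt (τ := τ) (tr p) = B.card * 4 := by
    rw [Finset.sum_const_nat]
    intro x _
    rfl
  have w3 : ∑ e ∈ E, wt (τ := τ) (ee e) = E.card * 5 := by
    rw [Finset.sum_const_nat]
    intro x _
    rfl
  rw [w1, w2, w3] at hW
  rw [hW]
  by_cases hbig : 10 < A.card * 2 + (B.card * 4 + E.card * 5)
  · exact ⟨by omega, fun h => by omega⟩
  -- the values divided by eight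
  have q1 : ∑ x ∈ A, s (el x) * (val (τ := τ) (el x) : ℤ) =
      8 * ∑ x ∈ A, s (el x) * ((off t + code x.1 x.2 : ℕ) : ℤ) := by
    rw [Finset.mul_sum]
    refine Finset.sum_congr rfl fun x _ => ?_
    show s (el x) * ((8 * (off t + code x.1 x.2) : ℕ) : ℤ) = _
    push_cast
    ring
  have q2 : ∑ p ∈ B, s (tr p) * (val (τ := τ) (tr p) : ℤ) =
      8 * ∑ p ∈ B, s (tr p) * ((3 * off t + (code 0 p.1.1 + code 1 p.1.2.1 + code 2 p.1.2.2) :
        ℕ) : ℤ) := by
    rw [Finset.mul_sum]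
    refine Finset.sum_congr rfl fun p _ => ?_
    show s (tr p) * ((8 * (off t + code 0 p.1.1) + 8 * (off t + code 1 p.1.2.1) +
      8 * (off t + code 2 p.1.2.2) : ℕ) : ℤ) = _
    push_cast
    ring
  rw [q1, q2] at hV
  -- the vertices `E`
  have hE2 : E.card ≤ 2 := by omega
  rcases Nat.lt_or_ge 0 E.card with hE0 | hE0
  · rcases Nat.lt_or_ge 1 E.card with hE1 | hE1
    · have hE3 : E.card = 2 := by omega
      refine ⟨by omega, fun _ x hx => ?_⟩
      have : x ∈ A := by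
        rw [hA, Finset.mem_toLeft]
        exact hx
      have := Finset.card_pos.2 ⟨x, this⟩
      omega
    · exfalso
      have hE3 : E.card = 1 := by omega
      obtain ⟨e, he⟩ := Finset.card_eq_one.1 hE3
      rw [he, Finset.sum_singleton] at hV
      have hv : val (τ := τ) (ee e) = 1 ∨ val (τ := τ) (ee e) = 3 := by
        show (if e.1 = 0 then 1 else 3) = 1 ∨ (if e.1 = 0 then 1 else 3) = 3
        split_ifs
        · exact Or.inl rfl
        · exact Or.inr rfl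
      rcases hv with hv | hv <;> rcases hs (ee e) with h | h <;> rw [hv, h] at hV <;>
        push_cast at hV <;> omega
  have hE4 : E = ∅ := Finset.card_eq_zero.1 (by omega)
  rw [hE4, Finset.sum_empty, add_zero] at hV
  rw [hE4, Finset.card_empty, zero_mul, add_zero] at hbig ⊢
  -- there is an element or a triple
  have hAB : 0 < A.card + B.card := by
    by_contra hc
    have h1 : A = ∅ := Finset.card_eq_zero.1 (by omega)
    have h2 : B = ∅ := Finset.card_eq_zero.1 (by omega)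
    obtain ⟨v, hv⟩ := hne
    have h3 := split C hD (fun v => if v ∈ C then 1 else 0)
    rw [← hA, ← hB, ← hE, h1, h2, hE4] at h3
    simp only [Finset.sum_empty, add_zero] at h3
    have h4 : ∑ v ∈ C, (if v ∈ C then 1 else 0) = C.card := by
      rw [Finset.sum_ite_mem, Finset.inter_self]
      simp
    rw [h4] at h3
    have := Finset.card_pos.2 ⟨v, hv⟩
    omega
  have ht : 1 ≤ t := by
    rcases Nat.lt_or_ge 0 A.card with h | h
    · obtain ⟨x, -⟩ := Finset.card_pos.1 h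
      exact Nat.pos_of_ne_zero (fun h => by have := x.2.isLt; omega)
    · obtain ⟨p, -⟩ := Finset.card_pos.1 (by omega : 0 < B.card)
      exact Nat.pos_of_ne_zero (fun h => by have := p.1.1.isLt; omega)
  -- positive and negative parts
  set sa : Fin 3 × Fin t → ℤ := fun x => s (el x) with hsa
  set sb : ↥τ → ℤ := fun p => s (tr p) with hsb
  have hsa' : ∀ x, sa x = 1 ∨ sa x = -1 := fun x => hs _
  have hsb' : ∀ x, sb x = 1 ∨ sb x = -1 := fun x => hs _
  have r1 := pn A sa hsa' (fun x => ((off t + code x.1 x.2 : ℕ) : ℤ))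
  have r2 := pn B sb hsb' (fun p => ((3 * off t + (code 0 p.1.1 + code 1 p.1.2.1 +
    code 2 p.1.2.2) : ℕ) : ℤ))
  have k1 := cd A sa
  have k2 := cd B sb
  have mPA : ∀ x ∈ A.filter (fun x => sa x = 1), sa x = 1 := fun x hx =>
    (Finset.mem_filter.1 hx).2
  have mNA : ∀ x ∈ A.filter (fun x => ¬ sa x = 1), ¬ sa x = 1 := fun x hx =>
    (Finset.mem_filter.1 hx).2
  have mPB : ∀ x ∈ B.filter (fun x => sb x = 1), sb x = 1 := fun x hx =>
    (Finset.mem_filter.1 hx).2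
  have mNB : ∀ x ∈ B.filter (fun x => ¬ sb x = 1), ¬ sb x = 1 := fun x hx =>
    (Finset.mem_filter.1 hx).2
  have uA : A.filter (fun x => sa x = 1) ∪ A.filter (fun x => ¬ sa x = 1) = A :=
    Finset.filter_union_filter_not_eq _ _
  have uB : B.filter (fun x => sb x = 1) ∪ B.filter (fun x => ¬ sb x = 1) = B :=
    Finset.filter_union_filter_not_eq _ _
  set PA := A.filter (fun x => sa x = 1) with hPA
  set NA := A.filter (fun x => ¬ sa x = 1) with hNA
  set PB := B.filter (fun x => sb x = 1) with hPB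
  set NB := B.filter (fun x => ¬ sb x = 1) with hNB
  have hV' : (∑ x ∈ PA, ((off t + code x.1 x.2 : ℕ) : ℤ) -
      ∑ x ∈ NA, ((off t + code x.1 x.2 : ℕ) : ℤ)) + (∑ p ∈ PB, ((3 * off t + (code 0 p.1.1 +
        code 1 p.1.2.1 + code 2 p.1.2.2) : ℕ) : ℤ) - ∑ p ∈ NB, ((3 * off t + (code 0 p.1.1 +
        code 1 p.1.2.1 + code 2 p.1.2.2) : ℕ) : ℤ)) = 0 := by
    rw [← r1, ← r2]
    have h8 : (8 : ℤ) * (∑ x ∈ A, sa x * ((off t + code x.1 x.2 : ℕ) : ℤ) +
      ∑ p ∈ B, sb p * ((3 * off t + (code 0 p.1.1 + code 1 p.1.2.1 + code 2 p.1.2.2) :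
        ℕ) : ℤ)) = 0 := by
      rw [mul_add]
      exact hV.symm
    exact (mul_eq_zero.1 h8).resolve_left (by norm_num)
  -- bounds
  have bA : ∀ X : Finset (Fin 3 × Fin t), ∑ x ∈ X, ((off t + code x.1 x.2 : ℕ) : ℤ) =
      X.card * (off t : ℤ) + ∑ x ∈ X, (code x.1 x.2 : ℤ) := by
    intro X
    push_cast
    rw [Finset.sum_add_distrib, Finset.sum_const, nsmul_eq_mul]
  have bA0 : ∀ X : Finset (Fin 3 × Fin t), 0 ≤ ∑ x ∈ X, (code x.1 x.2 : ℤ) := fun X =>
    Finset.sum_nonneg fun x _ => Int.natCast_nonneg _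
  have bA1 : ∀ X : Finset (Fin 3 × Fin t), ∑ x ∈ X, (code x.1 x.2 : ℤ) ≤
      X.card * ((bs t ^ 6 : ℕ) : ℤ) := by
    intro X
    have := Finset.sum_le_card_nsmul X (fun x => (code x.1 x.2 : ℤ)) ((bs t ^ 6 : ℕ) : ℤ)
      (fun x _ => by exact_mod_cast (c6 x).le)
    rwa [nsmul_eq_mul] at this
  have bB : ∀ X : Finset ↥τ, ∑ p ∈ X, ((3 * off t + (code 0 p.1.1 + code 1 p.1.2.1 +
      code 2 p.1.2.2) : ℕ) : ℤ) = X.card * (3 * (off t : ℤ)) +
      ∑ p ∈ X, ((code 0 p.1.1 + code 1 p.1.2.1 + code 2 p.1.2.2 : ℕ) : ℤ) := by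
    intro X
    push_cast
    rw [Finset.sum_add_distrib, Finset.sum_const, nsmul_eq_mul]
  have bB0 : ∀ X : Finset ↥τ,
      0 ≤ ∑ p ∈ X, ((code 0 p.1.1 + code 1 p.1.2.1 + code 2 p.1.2.2 : ℕ) : ℤ) := fun X =>
    Finset.sum_nonneg fun x _ => Int.natCast_nonneg _
  have bB1 : ∀ X : Finset ↥τ,
      ∑ p ∈ X, ((code 0 p.1.1 + code 1 p.1.2.1 + code 2 p.1.2.2 : ℕ) : ℤ) ≤
      X.card * (3 * ((bs t ^ 6 : ℕ) : ℤ)) := by
    intro X
    have := Finset.sum_le_card_nsmul X (fun p => ((code 0 p.1.1 + code 1 p.1.2.1 +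
      code 2 p.1.2.2 : ℕ) : ℤ)) (3 * ((bs t ^ 6 : ℕ) : ℤ)) (fun p _ => by
        have e0 := (c6 (0, p.1.1)).le
        have e1 := (c6 (1, p.1.2.1)).le
        have e2 := (c6 (2, p.1.2.2)).le
        simp only at e0 e1 e2
        have : code 0 p.1.1 + code 1 p.1.2.1 + code 2 p.1.2.2 ≤ 3 * bs t ^ 6 := by omega
        exact_mod_cast this)
    rwa [nsmul_eq_mul] at this
  have hM : (0 : ℤ) < ((bs t ^ 6 : ℕ) : ℤ) := by
    have : 0 < bs t ^ 6 := by
      unfold bs
      positivity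
    exact_mod_cast this
  have hoff : 16 * ((bs t ^ 6 : ℕ) : ℤ) ≤ (off t : ℤ) := by
    have : 16 * bs t ^ 6 ≤ off t := by
      unfold off
      exact Nat.mul_le_mul_right _ (by omega)
    exact_mod_cast this
  have hcnt : (PA.card : ℤ) - NA.card + 3 * ((PB.card : ℤ) - NB.card) = 0 := by
    have hV'' := hV'
    rw [bA, bA, bB, bB] at hV''
    have a1 := bA0 PA
    have a2 := bA1 PA
    have a3 := bA0 NA
    have a4 := bA1 NA
    have a5 := bB0 PB
    have a6 := bB1 PB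
    have a7 := bB0 NB
    have a8 := bB1 NB
    generalize ((bs t ^ 6 : ℕ) : ℤ) = M at *
    generalize (off t : ℤ) = O at *
    generalize (∑ x ∈ PA, (code x.1 x.2 : ℤ)) = cPA at *
    generalize (∑ x ∈ NA, (code x.1 x.2 : ℤ)) = cNA at *
    generalize (∑ p ∈ PB, ((code 0 p.1.1 + code 1 p.1.2.1 + code 2 p.1.2.2 : ℕ) : ℤ)) = cPB at *
    generalize (∑ p ∈ NB, ((code 0 p.1.1 + code 1 p.1.2.1 + code 2 p.1.2.2 : ℕ) : ℤ)) = cNB at *
    have l1 : ((PA.card : ℤ) + 3 * PB.card) * M ≤ 7 * M :=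
      mul_le_mul_of_nonneg_right (by omega) hM.le
    have l2 : ((NA.card : ℤ) + 3 * NB.card) * M ≤ 7 * M :=
      mul_le_mul_of_nonneg_right (by omega) hM.le
    set k : ℤ := (PA.card : ℤ) - NA.card + 3 * ((PB.card : ℤ) - NB.card) with hk
    have hkk : O * k + (cPA - cNA) + (cPB - cNB) = 0 := by
      rw [← hV'', hk]
      ring
    rcases lt_trichotomy k 0 with h | h | h
    · exfalso
      have : O * k ≤ O * (-1) := mul_le_mul_of_nonneg_left (by omega) (by linarith)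
      nlinarith
    · exact h
    · exfalso
      have : O * 1 ≤ O * k := mul_le_mul_of_nonneg_left (by omega) (by linarith)
      nlinarith
  -- equality of the values
  have hval : ∑ x ∈ PA, vA x.1 x.2 + ∑ p ∈ PB, vC p.1 =
      ∑ x ∈ NA, vA x.1 x.2 + ∑ p ∈ NB, vC p.1 := by
    have e1 : ∀ X : Finset (Fin 3 × Fin t), ((∑ x ∈ X, vA x.1 x.2 : ℕ) : ℤ) =
        8 * ∑ x ∈ X, ((off t + code x.1 x.2 : ℕ) : ℤ) := by
      intro X
      rw [Finset.mul_sum, Nat.cast_sum]
      refine Finset.sum_congr rfl fun x _ => ?_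
      unfold vA
      push_cast
      ring
    have e2 : ∀ X : Finset ↥τ, ((∑ p ∈ X, vC p.1 : ℕ) : ℤ) =
        8 * ∑ p ∈ X, ((3 * off t + (code 0 p.1.1 + code 1 p.1.2.1 + code 2 p.1.2.2) : ℕ) :
          ℤ) := by
      intro X
      rw [Finset.mul_sum, Nat.cast_sum]
      refine Finset.sum_congr rfl fun x _ => ?_
      unfold vC vA
      push_cast
      ring
    have : ((∑ x ∈ PA, vA x.1 x.2 + ∑ p ∈ PB, vC p.1 : ℕ) : ℤ) =
        ((∑ x ∈ NA, vA x.1 x.2 + ∑ p ∈ NB, vC p.1 : ℕ) : ℤ) := by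
      rw [Nat.cast_add, Nat.cast_add, e1, e1, e2, e2]
      linarith
    exact_mod_cast this
  have cas : (PA.card = 1 ∧ NA.card = 1 ∧ PB.card = 0 ∧ NB.card = 0) ∨
      (PA.card = 2 ∧ NA.card = 2 ∧ PB.card = 0 ∧ NB.card = 0) ∨
      (PA.card = 0 ∧ NA.card = 0 ∧ PB.card = 1 ∧ NB.card = 1) ∨
      (PA.card = 0 ∧ NA.card = 3 ∧ PB.card = 1 ∧ NB.card = 0) ∨
      (PA.card = 3 ∧ NA.card = 0 ∧ PB.card = 0 ∧ NB.card = 1) := by
    have j1 : PA.card ≤ 5 := by omega
    have j2 : NA.card ≤ 5 := by omega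
    have j3 : PB.card ≤ 2 := by omega
    have j4 : NB.card ≤ 2 := by omega
    generalize PA.card = a at *
    generalize NA.card = b at *
    generalize PB.card = c at *
    generalize NB.card = d at *
    clear hV' hval
    interval_cases c <;> interval_cases d <;> interval_cases a <;> omega
  rcases cas with ⟨h1, h2, h3, h4⟩ | ⟨h1, h2, h3, h4⟩ | ⟨h1, h2, h3, h4⟩ | ⟨h1, h2, h3, h4⟩ |
    ⟨h1, h2, h3, h4⟩
  · exfalso
    obtain ⟨x, hx⟩ := Finset.card_eq_one.1 h1
    obtain ⟨y, hy⟩ := Finset.card_eq_one.1 h2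
    rw [Finset.card_eq_zero.1 h3, Finset.card_eq_zero.1 h4, hx, hy, Finset.sum_singleton,
      Finset.sum_singleton, Finset.sum_empty, add_zero, add_zero] at hval
    have := iA x y hval
    exact mNA y (by rw [hy]; simp) (this ▸ mPA x (by rw [hx]; simp))
  · exfalso
    obtain ⟨x₁, x₂, h12, hx⟩ := Finset.card_eq_two.1 h1
    obtain ⟨x₃, x₄, h34, hy⟩ := Finset.card_eq_two.1 h2
    rw [Finset.card_eq_zero.1 h3, Finset.card_eq_zero.1 h4, hx, hy, Finset.sum_pair h12,
      Finset.sum_pair h34, Finset.sum_empty, add_zero, add_zero] at hval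
    rcases sid x₁ x₂ x₃ x₄ hval with ⟨h, -⟩ | ⟨h, -⟩
    · exact mNA x₃ (by rw [hy]; simp) (h ▸ mPA x₁ (by rw [hx]; simp))
    · exact mNA x₄ (by rw [hy]; simp) (h ▸ mPA x₁ (by rw [hx]; simp))
  · exfalso
    obtain ⟨p, hp⟩ := Finset.card_eq_one.1 h3
    obtain ⟨p', hp'⟩ := Finset.card_eq_one.1 h4
    rw [Finset.card_eq_zero.1 h1, Finset.card_eq_zero.1 h2, hp, hp', Finset.sum_singleton,
      Finset.sum_singleton, Finset.sum_empty, zero_add, zero_add] at hval
    have := Subtype.ext (iC p.1 p'.1 hval)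
    exact mNB p' (by rw [hp']; simp) (this ▸ mPB p (by rw [hp]; simp))
  · have hPA0 := Finset.card_eq_zero.1 h1
    have hNB0 := Finset.card_eq_zero.1 h4
    obtain ⟨x₁, x₂, x₃, h12, h13, h23, hx⟩ := Finset.card_eq_three.1 h2
    obtain ⟨p, hp⟩ := Finset.card_eq_one.1 h3
    refine ⟨by omega, fun _ _ _ => ⟨p, ?_⟩⟩
    rw [hPA0, hNB0, hx, hp, Finset.sum_empty, Finset.sum_empty, Finset.sum_singleton, zero_add,
      add_zero, Finset.sum_insert (by simp [h12, h13]), Finset.sum_pair h23] at hval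
    have h5 := tri p.1 x₁ x₂ x₃ (by rw [hval]; ring)
    refine last C hD hE4 p ?_ x₁ x₂ x₃ ?_ h5
    · rw [← hB, ← uB, hNB0, hp]
      simp
    · rw [← hA, ← uA, hPA0, hx]
      simp
  · have hNA0 := Finset.card_eq_zero.1 h2
    have hPB0 := Finset.card_eq_zero.1 h3
    obtain ⟨x₁, x₂, x₃, h12, h13, h23, hx⟩ := Finset.card_eq_three.1 h1
    obtain ⟨p, hp⟩ := Finset.card_eq_one.1 h4
    refine ⟨by omega, fun _ _ _ => ⟨p, ?_⟩⟩
    rw [hNA0, hPB0, hx, hp, Finset.sum_empty, Finset.sum_empty, Finset.sum_singleton, zero_add,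
      add_zero, Finset.sum_insert (by simp [h12, h13]), Finset.sum_pair h23] at hval
    have h5 := tri p.1 x₁ x₂ x₃ (by rw [← hval]; ring)
    refine last C hD hE4 p ?_ x₁ x₂ x₃ ?_ h5
    · rw [← hB, ← uB, hPB0, hp]
      simp
    · rw [← hA, ← uA, hNA0, hx]
      simp

end Pool.Agent.PDM.H14
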